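import Pool.Agent.Helper75.PX.Stmts

/-!
# Generators in the division case
-/

set_option autoImplicit false

universe u

open Module

namespace Pool.Agent.Helper75.PX

/-- the commutator of `z` and `w` commutes with an element that anticommutes with `z` and
commutes with `w` -/
theorem e4_ca {D : Type u} [DivisionRing D] {z w x : D} (hz : z * x = -(x * z))
    (hw : w * x = x * w) :
    z * w * z⁻¹ * w⁻¹ * x = x * (z * w * z⁻¹ * w⁻¹) := by
  have hz1 : SemiconjBy z x (-x) := by
    show z * x = -x * z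
    rw [hz, neg_mul]
  have hz2 : SemiconjBy z (-x) x := by
    show z * -x = x * z
    rw [mul_neg, hz, neg_neg]
  have hz3 : SemiconjBy z⁻¹ x (-x) := hz2.inv_symm_left₀
  have hw1 : SemiconjBy w (-x) (-x) := by
    show w * -x = -x * w
    rw [mul_neg, hw, neg_mul]
  have hw2 : SemiconjBy w x x := hw
  have hw3 : SemiconjBy w⁻¹ x x := hw2.inv_symm_left₀
  exact ((hz2.mul_left hw1).mul_left hz3).mul_left hw3

/-- the commutator of `z` and `w` commutes with an element that anticommutes with `w` and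
commutes with `z` -/
theorem e4_cb {D : Type u} [DivisionRing D] {z w x : D} (hz : z * x = x * z)
    (hw : w * x = -(x * w)) :
    z * w * z⁻¹ * w⁻¹ * x = x * (z * w * z⁻¹ * w⁻¹) := by
  have hw2 : SemiconjBy w (-x) x := by
    show w * -x = x * w
    rw [mul_neg, hw, neg_neg]
  have hw3 : SemiconjBy w⁻¹ x (-x) := hw2.inv_symm_left₀
  have hz1 : SemiconjBy z (-x) (-x) := by
    show z * -x = -x * z
    rw [mul_neg, hz, neg_mul]
  have hz2 : SemiconjBy z x x := hz
  have hz3 : SemiconjBy z⁻¹ (-x) (-x) := hz1.inv_symm_left₀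
  exact ((hz2.mul_left hw2).mul_left hz3).mul_left hw3

/-- the square of `w` has no component along `β` -/
theorem e4_sq {K D : Type u} [Field K] [DivisionRing D] [Algebra K D] (h2 : (2 : K) ≠ 0)
    {α β w : D} {v : Fin 4 → K} (hα : ∀ k : K, α ≠ algebraMap K D k) (hβ : β ≠ 0) (hw : w ≠ 0)
    (hwa : w * α = α * w) (hwb : w * β = -(β * w))
    (hv : w * w = uE α β v) : w * w = algebraMap K D (v 0) + v 1 • α := by
  have e1 : w * uE α β v = uE α β v * w := by rw [← hv, mul_assoc]
  have e2 : w * uE α β v = v 0 • w + v 1 • (α * w) - v 2 • (β * w) - v 3 • (α * β * w) := by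
    have : w * (α * β) = -(α * β * w) := by
      rw [← mul_assoc, hwa, mul_assoc, hwb, mul_neg, mul_assoc]
    unfold uE
    simp only [mul_add, mul_smul_comm, mul_one, hwa, hwb, this, smul_neg]
    abel
  have e3 : uE α β v * w = v 0 • w + v 1 • (α * w) + v 2 • (β * w) + v 3 • (α * β * w) := by
    unfold uE
    simp only [add_mul, smul_mul_assoc, one_mul]
  have e4 : (2 : K) • ((v 2 • (1 : D) + v 3 • α) * (β * w)) = 0 := by
    have : (v 2 • (1 : D) + v 3 • α) * (β * w) = v 2 • (β * w) + v 3 • (α * β * w) := by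
      rw [add_mul, smul_mul_assoc, smul_mul_assoc, one_mul, mul_assoc]
    rw [this, two_smul]
    have h := e1
    rw [e2, e3] at h
    have h' := sub_eq_zero.mpr h.symm
    rw [← h']
    abel
  have e5 : v 2 • (1 : D) + v 3 • α = 0 := by
    rcases smul_eq_zero.mp e4 with h | h
    · exact absurd h h2
    · rcases mul_eq_zero.mp h with h | h
      · exact h
      · rcases mul_eq_zero.mp h with h | h
        · exact absurd h hβ
        · exact absurd h hw
  have h3 : v 3 = 0 := by
    by_contra h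
    apply hα (-((v 3)⁻¹ * v 2))
    have e6 : v 3 • α = -(v 2 • (1 : D)) := by
      rw [eq_neg_iff_add_eq_zero, add_comm]; exact e5
    have e7 : α = (v 3)⁻¹ • (v 3 • α) := by rw [smul_smul, inv_mul_cancel₀ h, one_smul]
    rw [e7, e6, smul_neg, smul_smul, map_neg, Algebra.algebraMap_eq_smul_one]
  have h2' : v 2 = 0 := by
    rw [h3, zero_smul, add_zero] at e5
    rcases smul_eq_zero.mp e5 with h | h
    · exact h
    · exact absurd h one_ne_zero
  rw [hv]
  unfold uE
  rw [h3, h2', zero_smul, zero_smul, add_zero, add_zero, Algebra.algebraMap_eq_smul_one]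

/-- all generators, division case -/
theorem st_E4 (h1 : ST_A4.{u}) (h2 : ST_G1.{u}) (h3 : ST_G4.{u}) (h4 : ST_W4.{u})
    (h5 : ST_CE.{u}) : ST_E4.{u} := by
  intro K D _ _ _ _ hD h20
  obtain ⟨α, a, haa, hα⟩ := h1 K D hD h20
  obtain ⟨z, hz, hza, hzz⟩ := h2 K D hD h20 α a haa hα
  have hα0 : α ≠ 0 := by
    intro h; exact hα 0 (by rw [h, map_zero])
  obtain ⟨β, b, p, hbb, hβ, hab, hzb, hzp⟩ := h3 K D hD h20 α z a haa hz hα0 hza hzz
  have hβ0 : β ≠ 0 := by
    intro h; exact hβ 0 (by rw [h, map_zero])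
  obtain ⟨w, hw, hwa, hwb⟩ := h4 K D hD h20 α β z a b haa hbb hβ hab hz hα0 hza hzb
  -- a good `w`
  have key : ∃ (w : D) (r s : K), w ≠ 0 ∧ w * α = α * w ∧ w * β = -(β * w) ∧ s ≠ 0 ∧
      w * w = algebraMap K D r + s • α := by
    have c1 : w * w * α = α * (w * w) := by
      rw [mul_assoc, hwa, ← mul_assoc, hwa, mul_assoc]
    have c2 : w * w * β = β * (w * w) := by
      rw [mul_assoc, hwb, mul_neg, ← mul_assoc, hwb, neg_mul, neg_neg, mul_assoc]
    obtain ⟨v, hv⟩ := h5 K D hD h20 α β z w a b haa hbb hab hz hw hα0 hβ0 hza hzb hwa hwb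
      (w * w) c1 c2
    have hsq := e4_sq h20 hα hβ0 hw hwa hwb hv
    by_cases hs : v 1 = 0
    · rw [hs, zero_smul, add_zero] at hsq
      have hv0 : v 0 ≠ 0 := by
        intro h
        rw [h, map_zero] at hsq
        exact hw (mul_self_eq_zero.mp hsq)
      have h1α : (1 : D) + α ≠ 0 := by
        intro h
        apply hα (-1)
        rw [map_neg, map_one, eq_neg_iff_add_eq_zero, add_comm]
        exact h
      have hwa' : Commute w α := hwa
      refine ⟨(1 + α) * w, v 0 * (1 + a), 2 * v 0, mul_ne_zero h1α hw, ?_, ?_,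
        mul_ne_zero h20 hv0, ?_⟩
      · rw [mul_assoc, hwa, ← mul_assoc, ← mul_assoc, add_mul, mul_add, one_mul, mul_one]
      · rw [mul_assoc, hwb, mul_neg, ← mul_assoc, ← mul_assoc, add_mul, mul_add, one_mul, mul_one,
          hab]
      · have e1 : (1 + α) * w * ((1 + α) * w) = (1 + α) * (1 + α) * (w * w) := by
          have : w * (1 + α) = (1 + α) * w := by
            rw [mul_add, add_mul, mul_one, one_mul, hwa]
          rw [mul_assoc, ← mul_assoc w, this, mul_assoc, ← mul_assoc]
        have e2 : (1 + α) * (1 + α) = algebraMap K D (1 + a) + (2 : K) • α := by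
          rw [add_mul, mul_add, mul_add, one_mul, mul_one, one_mul, haa, map_add, map_one,
            two_smul]
          abel
        rw [e1, e2, hsq, add_mul, ← map_mul, mul_comm (1 + a), smul_mul_assoc,
          ← Algebra.commutes, ← Algebra.smul_def, smul_smul]
    · exact ⟨w, v 0, v 1, hw, hwa, hwb, hs, hsq⟩
  obtain ⟨w, r, s, hw, hwa, hwb, hs, hww⟩ := key
  have haa' : (s • α) * (s • α) = algebraMap K D (s ^ 2 * a) := by
    rw [smul_mul_smul_comm, haa, ← sq, map_mul, Algebra.smul_def]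
  have hab' : (s • α) * β = β * (s • α) := by rw [smul_mul_assoc, hab, mul_smul_comm]
  have hα0' : s • α ≠ 0 := smul_ne_zero hs hα0
  have hza' : z * (s • α) = -((s • α) * z) := by
    rw [mul_smul_comm, hza, smul_mul_assoc, smul_neg]
  have hwa' : w * (s • α) = (s • α) * w := by rw [mul_smul_comm, hwa, smul_mul_assoc]
  obtain ⟨v, hv⟩ := h5 K D hD h20 (s • α) β z w (s ^ 2 * a) b haa' hbb hab' hz hw hα0' hβ0
    hza' hzb hwa' hwb (z * w * z⁻¹ * w⁻¹) (e4_ca hza' hwa') (e4_cb hzb hwb)
  have ha0 : s ^ 2 * a ≠ 0 := by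
    intro h
    rw [h, map_zero] at haa'
    exact hα0' (mul_self_eq_zero.mp haa')
  have hb0 : b ≠ 0 := by
    intro h
    rw [h, map_zero] at hbb
    exact hβ0 (mul_self_eq_zero.mp hbb)
  refine ⟨s • α, β, z, w, s ^ 2 * a, b, p, r, v, ?_⟩
  exact
    { haa := haa'
      hbb := hbb
      hab := hab'
      hza := hza'
      hzb := hzb
      hwa := hwa'
      hwb := hwb
      hzz := hzp
      hww := hww
      hzw := by
        rw [← hv, mul_assoc (z * w * z⁻¹), ← mul_assoc w⁻¹, inv_mul_cancel₀ hw, one_mul,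
          mul_assoc (z * w), inv_mul_cancel₀ hz, mul_one]
      a0 := ha0
      b0 := hb0
      uz := isUnit_iff_ne_zero.mpr hz
      uw := isUnit_iff_ne_zero.mpr hw }

end Pool.Agent.Helper75.PX
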